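import Pool.Agent.P.MP_d3e5c7_ag.NagF

set_option autoImplicit false

namespace Pool.Agent.Results.MP_d3e5c7_ag.Nagata

open Pool.Agent.P.MP_d3e5c7_ag

/-- Nagata's conjecture: for `s ≥ 10` very general points, a plane curve of degree `d` with
multiplicity at least `m i` at the `i`-th point has `∑ m i < √s * d`. -/
theorem result (s : ℕ) (hs : 10 ≤ s) :
    ∃ Z : Set (MvPolynomial (Fin s × Fin 2) ℂ), Z.Countable ∧ 0 ∉ Z ∧
      ∀ p : Fin s → Fin 2 → ℂ,
        (∀ P ∈ Z, MvPolynomial.eval (fun ij : Fin s × Fin 2 => p ij.1 ij.2) P ≠ 0) →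
        ∀ (d : ℕ) (m : Fin s → ℕ) (f : MvPolynomial (Fin 2) ℂ), 0 < d → f.totalDegree = d →
          (∀ i : Fin s, ∀ j < m i, MvPolynomial.homogeneousComponent j (MvPolynomial.aeval
              (fun k : Fin 2 => MvPolynomial.X k + MvPolynomial.C (p i k)) f) = 0) →
          (∑ i, (m i : ℝ)) < Real.sqrt s * d := by
  have hc : Countable (MvPolynomial (Fin s × Fin 2) ℚ) := by
    rw [← Cardinal.mk_le_aleph0_iff]
    exact MvPolynomial.cardinalMk_le_max.trans
      (max_le (max_le Cardinal.mk_le_aleph0 Cardinal.mk_le_aleph0) le_rfl)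
  refine ⟨MvPolynomial.map (algebraMap ℚ ℂ) '' {q | q ≠ 0}, (Set.to_countable _).image _, ?_, ?_⟩
  · rintro ⟨q, hq, h0⟩
    exact hq (MvPolynomial.map_injective _ (algebraMap ℚ ℂ).injective (by simpa using h0))
  intro p hp d m f hd hfd hm
  have hp' : AlgebraicIndependent ℚ (fun ij : Fin s × Fin 2 => p ij.1 ij.2) := by
    rw [algebraicIndependent_iff]
    intro q hq
    by_contra h0
    apply hp _ ⟨q, h0, rfl⟩
    rw [MvPolynomial.eval_map, ← MvPolynomial.aeval_def, hq]
  have h := Nag.nagata hs hd p hp' m (f := f) (by rintro rfl; simp at hfd; omega) hfd.le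
    (fun i => (van_iff_hc _ _ _).2 (hm i))
  have h2 : (∑ i, (m i : ℝ)) ^ 2 < (Real.sqrt s * d) ^ 2 := by
    rw [mul_pow, Real.sq_sqrt (Nat.cast_nonneg s)]
    exact_mod_cast h
  exact lt_of_pow_lt_pow_left₀ 2 (by positivity) h2

end Pool.Agent.Results.MP_d3e5c7_ag.Nagata
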