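import Pool.Agent.P.MP_d3e5c7_ag.SvD

set_option autoImplicit false

namespace Pool.Agent.Results.MP_d3e5c7_ag.SubCubic

open Pool.Agent.P.MP_d3e5c7_ag

/-- At very general points no curve has negative square when all multiplicities but one are
small against the degree. -/
theorem result (s : ℕ) :
    ∃ Z : Set (MvPolynomial (Fin s × Fin 2) ℂ), Z.Countable ∧ 0 ∉ Z ∧
      ∀ p : Fin s → Fin 2 → ℂ,
        (∀ P ∈ Z, MvPolynomial.eval (fun ij : Fin s × Fin 2 => p ij.1 ij.2) P ≠ 0) →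
        ∀ (d M : ℕ) (m : Fin s → ℕ) (o : Fin s) (T : Finset (ℕ × ℕ)) (f : MvPolynomial (Fin 2) ℂ),
          (∀ i, i ≠ o → m i ≤ M) →
          (∀ i, i ≠ o → 0 < m i → ∃ t ∈ T, m i ≤ t.1 ∧ t.1 ≤ m i + t.2) →
          10 ^ 20 * M * (M * ∑ t ∈ T, (1 + (t.2 : ℝ) / √t.1 + (t.2 : ℝ) ^ 3 / t.1 ^ 2) ^ (1 / 17 : ℝ)
            + m o) + (m o : ℝ) ^ 2 ≤ ∑ i, (m i : ℝ) ^ 2 →
          f ≠ 0 → f.totalDegree = d →
          (∀ i : Fin s, ∀ j < m i, MvPolynomial.homogeneousComponent j (MvPolynomial.aeval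
              (fun k : Fin 2 => MvPolynomial.X k + MvPolynomial.C (p i k)) f) = 0) →
          ∑ i, m i ^ 2 ≤ d ^ 2 := by
  have hc : Countable (MvPolynomial (Fin s × Fin 2) ℚ) := by
    rw [← Cardinal.mk_le_aleph0_iff]
    exact MvPolynomial.cardinalMk_le_max.trans
      (max_le (max_le Cardinal.mk_le_aleph0 Cardinal.mk_le_aleph0) le_rfl)
  refine ⟨MvPolynomial.map (algebraMap ℚ ℂ) '' {q | q ≠ 0}, (Set.to_countable _).image _, ?_, ?_⟩
  · rintro ⟨q, hq, h0⟩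
    exact hq (MvPolynomial.map_injective _ (algebraMap ℚ ℂ).injective (by simpa using h0))
  intro p hp d M m o T f hM hT hS hf0 hfd hm
  have hp' : AlgebraicIndependent ℚ (fun ij : Fin s × Fin 2 => p ij.1 ij.2) := by
    rw [algebraicIndependent_iff]
    intro q hq
    by_contra h0
    apply hp _ ⟨q, h0, rfl⟩
    rw [MvPolynomial.eval_map, ← MvPolynomial.aeval_def, hq]
  refine Sv.free p hp' m o T _ hM (fun t => ?_) hT hS hf0 hfd.le
    fun i => (van_iff_hc _ _ _).2 (hm i)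
  have h1 : 0 ≤ (t.2 : ℝ) / √t.1 := by positivity
  have h2 : 0 ≤ (t.2 : ℝ) ^ 3 / t.1 ^ 2 := by positivity
  rw [← Real.rpow_natCast _ 17, ← Real.rpow_mul (by linarith)]
  norm_num
  exact ⟨Real.one_le_rpow (by linarith) (by norm_num), by linarith, by linarith⟩

end Pool.Agent.Results.MP_d3e5c7_ag.SubCubic
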