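import Pool.Agent.P.MP_d3e5c7_ag.SnD

set_option autoImplicit false

namespace Pool.Agent.Results.MP_d3e5c7_ag.WeightedNagata

open Pool.Agent.P.MP_d3e5c7_ag

/-- Nagata's inequality with unequal weights: at very general points the class
`√(∑ a i ^ 2) H - ∑ a i E i` is nef for the weights described by the hypotheses. -/
theorem result (s : ℕ) :
    ∃ Z : Set (MvPolynomial (Fin s × Fin 2) ℂ), Z.Countable ∧ 0 ∉ Z ∧
      ∀ p : Fin s → Fin 2 → ℂ,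
        (∀ P ∈ Z, MvPolynomial.eval (fun ij : Fin s × Fin 2 => p ij.1 ij.2) P ≠ 0) →
        ∀ (a : Fin s → ℝ) (h : ℝ) (T : Finset ℝ) (C : Finset (Finset (Fin s)))
          (g : Finset (Fin s) → ℝ), (∀ i, 0 ≤ a i) → 0 < h →
          (∀ c ∈ C, ∀ c' ∈ C, c ≠ c' → Disjoint c c') →
          (∀ c ∈ C, 0 < g c ∧ (c.card = 9 ∨ c.card = 17) ∧
            ∑ i ∈ c, (a i - g c / 2) ^ 2 = g c ^ 2 / 4 ∧ 2 ^ 15 * g c ≤ h ∧
            2 ^ 16 * g c * h ≤ ∑ c' ∈ C with g c' = g c, ∑ i ∈ c', a i ^ 2) →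
          (∀ i, (∀ c ∈ C, i ∉ c) → 0 < a i → a i ∉ T → a i = h ∨
            (2 * a i ≤ h ∧ 3 * h ≤ ({j | (∀ c ∈ C, j ∉ c) ∧ a j = a i}.ncard : ℝ) * a i)) →
          (∀ i, (∀ c ∈ C, i ∉ c) → a i ∈ T →
            a i ≤ h ∧ ({j | (∀ c ∈ C, j ∉ c) ∧ a j = a i}.ncard : ℝ) * a i ≤ 6 * h) →
          min (9 + 27 * (T.card : ℝ)) (26 + 10 * (T.card : ℝ)) * h ^ 2 ≤ ∑ i, a i ^ 2 →
          ∀ (d : ℕ) (m : Fin s → ℕ) (f : MvPolynomial (Fin 2) ℂ), f ≠ 0 → f.totalDegree = d →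
            (∀ i : Fin s, ∀ j < m i, MvPolynomial.homogeneousComponent j (MvPolynomial.aeval
                (fun k : Fin 2 => MvPolynomial.X k + MvPolynomial.C (p i k)) f) = 0) →
            ∑ i, a i * (m i : ℝ) ≤ Real.sqrt (∑ i, a i ^ 2) * d := by
  have hc : Countable (MvPolynomial (Fin s × Fin 2) ℚ) := by
    rw [← Cardinal.mk_le_aleph0_iff]
    exact MvPolynomial.cardinalMk_le_max.trans
      (max_le (max_le Cardinal.mk_le_aleph0 Cardinal.mk_le_aleph0) le_rfl)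
  refine ⟨MvPolynomial.map (algebraMap ℚ ℂ) '' {q | q ≠ 0}, (Set.to_countable _).image _, ?_, ?_⟩
  · rintro ⟨q, hq, h0⟩
    exact hq (MvPolynomial.map_injective _ (algebraMap ℚ ℂ).injective (by simpa using h0))
  intro p hp a h T C g ha hh hd hC h1 h2 hS d m f hf0 hfd hm
  have hp' : AlgebraicIndependent ℚ (fun ij : Fin s × Fin 2 => p ij.1 ij.2) := by
    rw [algebraicIndependent_iff]
    intro q hq
    by_contra h0
    apply hp _ ⟨q, h0, rfl⟩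
    rw [MvPolynomial.eval_map, ← MvPolynomial.aeval_def, hq]
  exact Sn.weighted p hp' a hh T C g hd (fun c hc => ⟨(hC c hc).1, ⟨(hC c hc).2.1, (hC c hc).2.2.1⟩,
    (hC c hc).2.2.2⟩) h1 h2 ha hS m hf0 hfd.le fun i => (van_iff_hc _ _ _).2 (hm i)

end Pool.Agent.Results.MP_d3e5c7_ag.WeightedNagata
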